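import Pool.Agent.H851R2.LG.Sets
import Pool.Agent.H619R2.LG.Cls

/-! Task 8 (DIS) of the large gaps project: disjointness errors tend to zero. -/

open Complex Filter Topology Set MeasureTheory

namespace LG

open SG (hh nn dd dl ord NZ)
open SP (RHs ZZ mu wt Mk Par Eb PS chi qq tt)

namespace DISx

/-- sets of energy at most `N` -/
noncomputable def FF (S : Finset ℕ) (E : ℕ → ℕ) (N : ℕ) : Finset (Finset ℕ) :=
  S.powerset.filter (fun A => ∑ p ∈ A, E p ≤ N)

noncomputable def XX (y : ℕ → ℝ) (A : Finset ℕ) : ℝ := ∏ p ∈ A, y p ^ 2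

variable (S : Finset ℕ) (E : ℕ → ℕ) (y : ℕ → ℝ) (N : ℕ)

theorem XX_nonneg (A : Finset ℕ) : 0 ≤ XX y A := Finset.prod_nonneg (fun _ _ => sq_nonneg _)

theorem sum_fiber (g : ℕ → ℝ) :
    ∑ A ∈ FF S E N, g (∑ p ∈ A, E p) * XX y A =
    ∑ n ∈ Finset.range (N + 1), g n *
      ∑ A ∈ S.powerset.filter (fun A => ∑ p ∈ A, E p = n), XX y A := by
  rw [← Finset.sum_fiberwise_of_maps_to (s := FF S E N) (t := Finset.range (N + 1))
    (g := fun A : Finset ℕ => ∑ p ∈ A, E p)]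
  · apply Finset.sum_congr rfl
    intro n hn
    rw [Finset.mem_range] at hn
    rw [Finset.mul_sum, FF, Finset.filter_filter]
    apply Finset.sum_congr
    · ext A
      simp only [Finset.mem_filter, Finset.mem_powerset]
      constructor
      · rintro ⟨h1, h2, h3⟩
        exact ⟨h1, h3⟩
      · rintro ⟨h1, h2⟩
        exact ⟨h1, by omega, h2⟩
    · intro A hA
      rw [Finset.mem_filter] at hA
      rw [hA.2]
  · intro A hA
    rw [FF, Finset.mem_filter] at hA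
    rw [Finset.mem_range]
    omega

theorem sum_contain (p : ℕ) :
    ∑ A ∈ (FF S E N).filter (fun A => p ∈ A), XX y A ≤ y p ^ 2 * ∑ A ∈ FF S E N, XX y A := by
  have h1 : ∑ A ∈ (FF S E N).filter (fun A => p ∈ A), XX y A =
      ∑ A ∈ (FF S E N).filter (fun A => p ∈ A), y p ^ 2 * XX y (A.erase p) := by
    apply Finset.sum_congr rfl
    intro A hA
    rw [Finset.mem_filter] at hA
    rw [XX, XX, Finset.mul_prod_erase A (fun p => y p ^ 2) hA.2]
  rw [h1, ← Finset.mul_sum]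
  apply mul_le_mul_of_nonneg_left _ (sq_nonneg _)
  rw [← Finset.sum_image (s := (FF S E N).filter (fun A => p ∈ A)) (g := fun A => A.erase p)
    (f := XX y)]
  · apply Finset.sum_le_sum_of_subset_of_nonneg
    · intro A' hA'
      rw [Finset.mem_image] at hA'
      obtain ⟨A, hA, rfl⟩ := hA'
      rw [Finset.mem_filter, FF, Finset.mem_filter, Finset.mem_powerset] at hA
      rw [FF, Finset.mem_filter, Finset.mem_powerset]
      refine ⟨(Finset.erase_subset _ _).trans hA.1.1, ?_⟩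
      refine le_trans (Finset.sum_le_sum_of_subset (Finset.erase_subset _ _)) hA.1.2
    · intro A _ _
      exact XX_nonneg y A
  · intro A hA B hB hAB
    simp only [Finset.coe_filter, Set.mem_ofPred_eq] at hA hB
    have hAB' : A.erase p = B.erase p := hAB
    rw [← Finset.insert_erase hA.2, hAB', Finset.insert_erase hB.2]

theorem sum_single :
    ∑ p ∈ S.filter (fun p => E p ≤ N), y p ^ 2 ≤ ∑ A ∈ FF S E N, XX y A := by
  have h1 : ∑ p ∈ S.filter (fun p => E p ≤ N), y p ^ 2 =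
      ∑ p ∈ S.filter (fun p => E p ≤ N), XX y {p} := by
    apply Finset.sum_congr rfl
    intro p _
    simp [XX]
  rw [h1, ← Finset.sum_image (s := S.filter (fun p => E p ≤ N)) (g := fun p => ({p} : Finset ℕ))
    (f := XX y)]
  · apply Finset.sum_le_sum_of_subset_of_nonneg
    · intro A' hA'
      rw [Finset.mem_image] at hA'
      obtain ⟨p, hp, rfl⟩ := hA'
      rw [Finset.mem_filter] at hp
      rw [FF, Finset.mem_filter, Finset.mem_powerset]
      simp only [Finset.singleton_subset_iff, Finset.sum_singleton]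
      exact hp
    · intro A _ _
      exact XX_nonneg y A
  · intro a _ b _ hab
    exact Finset.singleton_injective hab

theorem prod_sum (W : Finset (Finset ℕ)) (f g : Finset ℕ → ℝ) :
    ∑ q ∈ W ×ˢ W, f q.1 * g q.2 = (∑ A ∈ W, f A) * (∑ A ∈ W, g A) := by
  rw [Finset.sum_mul_sum, ← Finset.sum_product']

theorem sum_nondisj (M : ℝ) (hM : ∀ p ∈ S, y p ^ 2 ≤ M) (hM0 : 0 ≤ M) :
    ∑ q ∈ (FF S E N ×ˢ FF S E N).filter (fun q => ¬ Disjoint q.1 q.2), XX y q.1 * XX y q.2 ≤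
      M * (∑ A ∈ FF S E N, XX y A) ^ 3 := by
  obtain ⟨G, hG⟩ : ∃ G : ℝ, G = ∑ A ∈ FF S E N, XX y A := ⟨_, rfl⟩
  have hG0 : 0 ≤ G := by
    rw [hG]
    exact Finset.sum_nonneg (fun A _ => XX_nonneg y A)
  have h1 : ∑ q ∈ (FF S E N ×ˢ FF S E N).filter (fun q => ¬ Disjoint q.1 q.2),
      XX y q.1 * XX y q.2 ≤ ∑ q ∈ FF S E N ×ˢ FF S E N, ∑ p ∈ S.filter (fun p => E p ≤ N),
        (if p ∈ q.1 then XX y q.1 else 0) * (if p ∈ q.2 then XX y q.2 else 0) := by
    rw [Finset.sum_filter]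
    apply Finset.sum_le_sum
    intro q hq
    have hnn : ∀ p ∈ S.filter (fun p => E p ≤ N),
        0 ≤ (if p ∈ q.1 then XX y q.1 else 0) * (if p ∈ q.2 then XX y q.2 else 0) := by
      intro p _
      have h1 := XX_nonneg y q.1
      have h2 := XX_nonneg y q.2
      split_ifs <;> positivity
    split_ifs with hd
    · exact Finset.sum_nonneg hnn
    · rw [Finset.not_disjoint_iff] at hd
      obtain ⟨p, hp1, hp2⟩ := hd
      rw [Finset.mem_product] at hq
      have hq1 := hq.1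
      rw [FF, Finset.mem_filter, Finset.mem_powerset] at hq1
      have hpS : p ∈ S.filter (fun p => E p ≤ N) := by
        rw [Finset.mem_filter]
        refine ⟨hq1.1 hp1, ?_⟩
        exact le_trans (Finset.single_le_sum (f := E) (fun _ _ => Nat.zero_le _) hp1) hq1.2
      refine le_trans (le_of_eq ?_) (Finset.single_le_sum hnn hpS)
      rw [if_pos hp1, if_pos hp2]
  refine h1.trans ?_
  rw [Finset.sum_comm, ← hG]
  have h2 : ∀ p ∈ S.filter (fun p => E p ≤ N), ∑ q ∈ FF S E N ×ˢ FF S E N,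
      (if p ∈ q.1 then XX y q.1 else 0) * (if p ∈ q.2 then XX y q.2 else 0) ≤
      M * G ^ 2 * y p ^ 2 := by
    intro p hp
    rw [Finset.mem_filter] at hp
    rw [prod_sum (FF S E N) (fun A => if p ∈ A then XX y A else 0)
      (fun A => if p ∈ A then XX y A else 0), ← Finset.sum_filter]
    have h3 := sum_contain S E y N p
    rw [← hG] at h3
    have h4 : 0 ≤ ∑ A ∈ (FF S E N).filter (fun A => p ∈ A), XX y A :=
      Finset.sum_nonneg (fun A _ => XX_nonneg y A)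
    calc (∑ A ∈ (FF S E N).filter (fun A => p ∈ A), XX y A) *
          (∑ A ∈ (FF S E N).filter (fun A => p ∈ A), XX y A)
        ≤ (y p ^ 2 * G) * (y p ^ 2 * G) := mul_le_mul h3 h3 h4 (by positivity)
      _ = (y p ^ 2) * (G ^ 2 * y p ^ 2) := by ring
      _ ≤ M * (G ^ 2 * y p ^ 2) := mul_le_mul_of_nonneg_right (hM p hp.1) (by positivity)
      _ = _ := by ring
  refine (Finset.sum_le_sum h2).trans ?_
  rw [← Finset.mul_sum]
  have h5 := sum_single S E y N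
  rw [← hG] at h5
  calc M * G ^ 2 * ∑ i ∈ S.filter (fun p => E p ≤ N), y i ^ 2 ≤ M * G ^ 2 * G :=
        mul_le_mul_of_nonneg_left h5 (by positivity)
    _ = _ := by ring

/-- the pairs which are not disjoint, or contain `p` -/
theorem sum_bad (M : ℝ) (hM : ∀ p ∈ S, y p ^ 2 ≤ M) (p : ℕ) (hp : p ∈ S) :
    ∑ q ∈ (FF S E N ×ˢ FF S E N).filter (fun q => ¬ (Disjoint q.1 q.2 ∧ p ∉ q.1 ∧ p ∉ q.2)),
      XX y q.1 * XX y q.2 ≤
      M * (∑ A ∈ FF S E N, XX y A) ^ 3 + 2 * (M * (∑ A ∈ FF S E N, XX y A) ^ 2) := by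
  have hM0 : 0 ≤ M := (sq_nonneg _).trans (hM p hp)
  have hG0 : 0 ≤ ∑ A ∈ FF S E N, XX y A := Finset.sum_nonneg (fun A _ => XX_nonneg y A)
  have h0 := sum_nondisj S E y N M hM hM0
  have h1 : ∑ q ∈ (FF S E N ×ˢ FF S E N).filter
      (fun q => ¬ (Disjoint q.1 q.2 ∧ p ∉ q.1 ∧ p ∉ q.2)), XX y q.1 * XX y q.2 ≤
      ∑ q ∈ (FF S E N ×ˢ FF S E N).filter (fun q => ¬ Disjoint q.1 q.2), XX y q.1 * XX y q.2 +
      (∑ q ∈ FF S E N ×ˢ FF S E N, (if p ∈ q.1 then XX y q.1 else 0) * XX y q.2 +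
      ∑ q ∈ FF S E N ×ˢ FF S E N, XX y q.1 * (if p ∈ q.2 then XX y q.2 else 0)) := by
    rw [Finset.sum_filter, Finset.sum_filter, ← Finset.sum_add_distrib, ← Finset.sum_add_distrib]
    apply Finset.sum_le_sum
    intro q _
    have h1 := XX_nonneg y q.1
    have h2 := XX_nonneg y q.2
    have h3 : 0 ≤ XX y q.1 * XX y q.2 := mul_nonneg h1 h2
    by_cases hd : Disjoint q.1 q.2 <;> by_cases hp1 : p ∈ q.1 <;> by_cases hp2 : p ∈ q.2 <;>
      simp [hd, hp1, hp2] <;> linarith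
  have h2 := sum_contain S E y N p
  have h3 : ∑ q ∈ FF S E N ×ˢ FF S E N, (if p ∈ q.1 then XX y q.1 else 0) * XX y q.2 ≤
      M * (∑ A ∈ FF S E N, XX y A) ^ 2 := by
    rw [prod_sum (FF S E N) (fun A => if p ∈ A then XX y A else 0) (XX y), ← Finset.sum_filter]
    calc (∑ A ∈ (FF S E N).filter (fun A => p ∈ A), XX y A) * ∑ A ∈ FF S E N, XX y A
        ≤ (y p ^ 2 * ∑ A ∈ FF S E N, XX y A) * ∑ A ∈ FF S E N, XX y A :=
          mul_le_mul_of_nonneg_right h2 hG0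
      _ ≤ (M * ∑ A ∈ FF S E N, XX y A) * ∑ A ∈ FF S E N, XX y A := by
          apply mul_le_mul_of_nonneg_right _ hG0
          exact mul_le_mul_of_nonneg_right (hM p hp) hG0
      _ = _ := by ring
  have h4 : ∑ q ∈ FF S E N ×ˢ FF S E N, XX y q.1 * (if p ∈ q.2 then XX y q.2 else 0) ≤
      M * (∑ A ∈ FF S E N, XX y A) ^ 2 := by
    rw [prod_sum (FF S E N) (XX y) (fun A => if p ∈ A then XX y A else 0), ← Finset.sum_filter]
    calc (∑ A ∈ FF S E N, XX y A) * (∑ A ∈ (FF S E N).filter (fun A => p ∈ A), XX y A)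
        ≤ (∑ A ∈ FF S E N, XX y A) * (y p ^ 2 * ∑ A ∈ FF S E N, XX y A) :=
          mul_le_mul_of_nonneg_left h2 hG0
      _ ≤ (∑ A ∈ FF S E N, XX y A) * (M * ∑ A ∈ FF S E N, XX y A) := by
          apply mul_le_mul_of_nonneg_left _ hG0
          exact mul_le_mul_of_nonneg_right (hM p hp) hG0
      _ = _ := by ring
  linarith

/-- replacing the good pairs by all pairs -/
theorem replace (M K : ℝ) (hM : ∀ p ∈ S, y p ^ 2 ≤ M) (p : ℕ) (hp : p ∈ S)
    (g g' : ℕ → ℝ) (hg : ∀ n ≤ N, |g n| ≤ K) (hg' : ∀ n ≤ N, |g' n| ≤ K) :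
    |∑ q ∈ (FF S E N ×ˢ FF S E N).filter (fun q => Disjoint q.1 q.2 ∧ p ∉ q.1 ∧ p ∉ q.2),
      (g (∑ x ∈ q.1, E x) * XX y q.1) * (g' (∑ x ∈ q.2, E x) * XX y q.2) -
      (∑ n ∈ Finset.range (N + 1), g n *
        ∑ A ∈ S.powerset.filter (fun A => ∑ p ∈ A, E p = n), XX y A) *
      (∑ n ∈ Finset.range (N + 1), g' n *
        ∑ A ∈ S.powerset.filter (fun A => ∑ p ∈ A, E p = n), XX y A)| ≤
      K ^ 2 * (M * (∑ A ∈ FF S E N, XX y A) ^ 3 + 2 * (M * (∑ A ∈ FF S E N, XX y A) ^ 2)) := by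
  rw [← sum_fiber, ← sum_fiber, Finset.sum_mul_sum, ← Finset.sum_product',
    ← Finset.sum_filter_add_sum_filter_not (FF S E N ×ˢ FF S E N)
      (fun q => Disjoint q.1 q.2 ∧ p ∉ q.1 ∧ p ∉ q.2)
      (fun q => (g (∑ x ∈ q.1, E x) * XX y q.1) * (g' (∑ x ∈ q.2, E x) * XX y q.2)),
    sub_add_cancel_left, abs_neg]
  refine (Finset.abs_sum_le_sum_abs _ _).trans ?_
  have h1 := sum_bad S E y N M hM p hp
  refine le_trans ?_ (mul_le_mul_of_nonneg_left h1 (sq_nonneg K))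
  rw [Finset.mul_sum]
  apply Finset.sum_le_sum
  intro q hq
  rw [Finset.mem_filter, Finset.mem_product, FF, Finset.mem_filter, Finset.mem_filter] at hq
  have h2 := hg _ hq.1.1.2
  have h3 := hg' _ hq.1.2.2
  have hK : 0 ≤ K := (abs_nonneg _).trans h2
  rw [abs_mul, abs_mul, abs_mul, abs_of_nonneg (XX_nonneg y q.1), abs_of_nonneg (XX_nonneg y q.2)]
  have h4 := XX_nonneg y q.1
  have h5 := XX_nonneg y q.2
  calc |g (∑ x ∈ q.1, E x)| * XX y q.1 * (|g' (∑ x ∈ q.2, E x)| * XX y q.2)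
      ≤ K * XX y q.1 * (K * XX y q.2) := by gcongr
    _ = _ := by ring

theorem replace0 (M K : ℝ) (hM : ∀ p ∈ S, y p ^ 2 ≤ M) (hM0 : 0 ≤ M)
    (g g' : ℕ → ℝ) (hg : ∀ n ≤ N, |g n| ≤ K) (hg' : ∀ n ≤ N, |g' n| ≤ K) :
    |∑ q ∈ (FF S E N ×ˢ FF S E N).filter (fun q => Disjoint q.1 q.2),
      (g (∑ x ∈ q.1, E x) * XX y q.1) * (g' (∑ x ∈ q.2, E x) * XX y q.2) -
      (∑ n ∈ Finset.range (N + 1), g n *
        ∑ A ∈ S.powerset.filter (fun A => ∑ p ∈ A, E p = n), XX y A) *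
      (∑ n ∈ Finset.range (N + 1), g' n *
        ∑ A ∈ S.powerset.filter (fun A => ∑ p ∈ A, E p = n), XX y A)| ≤
      K ^ 2 * (M * (∑ A ∈ FF S E N, XX y A) ^ 3) := by
  rw [← sum_fiber, ← sum_fiber, Finset.sum_mul_sum, ← Finset.sum_product',
    ← Finset.sum_filter_add_sum_filter_not (FF S E N ×ˢ FF S E N)
      (fun q => Disjoint q.1 q.2)
      (fun q => (g (∑ x ∈ q.1, E x) * XX y q.1) * (g' (∑ x ∈ q.2, E x) * XX y q.2)),
    sub_add_cancel_left, abs_neg]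
  refine (Finset.abs_sum_le_sum_abs _ _).trans ?_
  have h1 := sum_nondisj S E y N M hM hM0
  refine le_trans ?_ (mul_le_mul_of_nonneg_left h1 (sq_nonneg K))
  rw [Finset.mul_sum]
  apply Finset.sum_le_sum
  intro q hq
  rw [Finset.mem_filter, Finset.mem_product, FF, Finset.mem_filter, Finset.mem_filter] at hq
  have h2 := hg _ hq.1.1.2
  have h3 := hg' _ hq.1.2.2
  have hK : 0 ≤ K := (abs_nonneg _).trans h2
  rw [abs_mul, abs_mul, abs_mul, abs_of_nonneg (XX_nonneg y q.1), abs_of_nonneg (XX_nonneg y q.2)]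
  have h4 := XX_nonneg y q.1
  have h5 := XX_nonneg y q.2
  calc |g (∑ x ∈ q.1, E x)| * XX y q.1 * (|g' (∑ x ∈ q.2, E x)| * XX y q.2)
      ≤ K * XX y q.1 * (K * XX y q.2) := by gcongr
    _ = _ := by ring

theorem ae_sq (P : Par) (r : ℝ) (F : ℕ → ℝ) (T : ℝ) (A : Finset ℕ) :
    ae P r F T A ^ 2 = F (∑ p ∈ A, Eb P T p) ^ 2 * XX (yp P r T) A := by
  unfold ae XX
  rw [mul_pow, Finset.prod_pow]

theorem ae_insert (P : Par) (r : ℝ) (F : ℕ → ℝ) (T : ℝ) (A : Finset ℕ) (p : ℕ) (hp : p ∉ A) :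
    ae P r F T A * ae P r F T (insert p A) =
      yp P r T p * (F (∑ p ∈ A, Eb P T p) * F (∑ p ∈ A, Eb P T p + Eb P T p) * XX (yp P r T) A) := by
  unfold ae XX
  rw [Finset.sum_insert hp, Finset.prod_insert hp, Finset.prod_pow, add_comm (Eb P T p)]
  ring

theorem Eb_le (P : Par) (T : ℝ) (hT : 10 ≤ T) (p : ℕ) (hp : p ∈ PS P T) : Eb P T p ≤ P.B := by
  unfold PS at hp
  rw [Finset.mem_filter, Finset.mem_Icc] at hp
  unfold Eb
  rw [Nat.ceil_le]
  have hκ := P.hκ1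
  have hL : 0 < Real.log T := Real.log_pos (by linarith)
  have hp1 : (0 : ℝ) < p := by exact_mod_cast hp.2.1.pos
  have h1 : (p : ℝ) ≤ T ^ (1 - P.κ) := by
    have h2 : (p : ℝ) ≤ (nn P.κ T : ℝ) := by exact_mod_cast hp.1.2
    exact h2.trans (Nat.floor_le (by positivity))
  have h3 : Real.log p ≤ (1 - P.κ) * Real.log T := by
    rw [← Real.log_rpow (by linarith)]
    exact Real.log_le_log hp1 h1
  rw [div_le_iff₀ (by nlinarith)]
  exact mul_le_mul_of_nonneg_left h3 (Nat.cast_nonneg _)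

end DISx

open DISx in
theorem DIS (P : Par) (B0 : ℕ) (hB : P.B = 2 * B0) (r : ℝ) (hr : 0 < r) (F : ℕ → ℝ) :
    ∃ C η T0 : ℝ, 0 < C ∧ 0 < η ∧ 10 ≤ T0 ∧ ∀ T : ℝ, T0 ≤ T →
    |Cn P B0 r F T 1 - SF B0 F (QT P r T) ^ 2| ≤ C * T ^ (-η) ∧
    (∀ p ∈ PS P T, Eb P T p ≤ B0 →
      |Cn P B0 r F T p - 2 * yp P r T p * (SF B0 F (QT P r T) * SM B0 F (QT P r T) (Eb P T p))| ≤
        C * |yp P r T p| * T ^ (-η)) ∧
    (∀ p ∈ PS P T, B0 < Eb P T p → Cn P B0 r F T p = 0) ∧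
    (∀ p ∈ PS P T, |Cn P B0 r F T (p ^ 2)| ≤ C / p) := by
  obtain ⟨C, T0, hC, hT0, hfam⟩ := fam_facts P B0 hB r F
  have hB0 : 1 ≤ B0 := by
    have := P.hB
    omega
  have hB0' : (0 : ℝ) < B0 := by exact_mod_cast hB0
  obtain ⟨K, hK⟩ : ∃ K : ℝ, K = ∑ n ∈ Finset.range (3 * B0 + 1), |F n| := ⟨_, rfl⟩
  have hK0 : 0 ≤ K := by
    rw [hK]
    exact Finset.sum_nonneg (fun _ _ => abs_nonneg _)
  have hF : ∀ n ≤ 3 * B0, |F n| ≤ K := by
    intro n hn
    rw [hK]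
    exact Finset.single_le_sum (f := fun n => |F n|) (fun _ _ => abs_nonneg _)
      (Finset.mem_range.2 (by omega))
  have hFF : ∀ n ≤ 3 * B0, ∀ m ≤ 3 * B0, |F n * F m| ≤ K ^ 2 := by
    intro n hn m hm
    rw [abs_mul, sq]
    exact mul_le_mul (hF n hn) (hF m hm) (abs_nonneg _) hK0
  refine ⟨2 * (K ^ 4 * (C ^ 4 + 2 * C ^ 3)) + K ^ 4 * C ^ 3 + 1, 1 / (4 * (B0 : ℝ)), T0,
    by positivity, by positivity, hT0, fun T hT => ?_⟩
  have hT10 : 10 ≤ T := hT0.trans hT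
  have hT00 : 0 < T := by linarith
  obtain ⟨-, h2, -, h4⟩ := hfam T hT
  obtain ⟨τ, hτ⟩ : ∃ τ : ℝ, τ = T ^ (-(1 / (4 * (B0 : ℝ)))) := ⟨_, rfl⟩
  have hτ0 : 0 < τ := by rw [hτ]; positivity
  rw [← hτ] at h2 ⊢
  obtain ⟨G, hG⟩ : ∃ G : ℝ, G = ∑ A ∈ FF (PS P T) (Eb P T) B0, XX (yp P r T) A := ⟨_, rfl⟩
  have hGC : G ≤ C := by rw [hG]; exact h4
  have hG0 : 0 ≤ G := by
    rw [hG]
    exact Finset.sum_nonneg (fun A _ => XX_nonneg _ A)
  have hM : ∀ p ∈ PS P T, yp P r T p ^ 2 ≤ C * τ := fun p hp => (h2 p hp).2.2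
  have hbad : C * τ * G ^ 3 + 2 * (C * τ * G ^ 2) ≤ (C ^ 4 + 2 * C ^ 3) * τ := by
    have e1 : G ^ 3 ≤ C ^ 3 := pow_le_pow_left₀ hG0 hGC 3
    have e2 : G ^ 2 ≤ C ^ 2 := pow_le_pow_left₀ hG0 hGC 2
    calc C * τ * G ^ 3 + 2 * (C * τ * G ^ 2) ≤ C * τ * C ^ 3 + 2 * (C * τ * C ^ 2) := by gcongr
      _ = _ := by ring
  have hbad0 : C * τ * G ^ 3 ≤ C ^ 4 * τ := by
    have e1 : G ^ 3 ≤ C ^ 3 := pow_le_pow_left₀ hG0 hGC 3
    calc C * τ * G ^ 3 ≤ C * τ * C ^ 3 := by gcongr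
      _ = _ := by ring
  refine ⟨?_, ?_, ?_, ?_⟩
  · -- the case 1
    have key := replace0 (PS P T) (Eb P T) (yp P r T) B0 (C * τ) (K ^ 2) hM (by positivity)
      (fun n => F n ^ 2) (fun n => F n ^ 2)
      (fun n hn => by simpa [sq] using hFF n (by omega) n (by omega))
      (fun n hn => by simpa [sq] using hFF n (by omega) n (by omega))
    rw [← hG] at key
    have e1 : Cn P B0 r F T 1 = ∑ q ∈ (FF (PS P T) (Eb P T) B0 ×ˢ FF (PS P T) (Eb P T) B0).filter
        (fun q => Disjoint q.1 q.2),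
        (F (∑ x ∈ q.1, Eb P T x) ^ 2 * XX (yp P r T) q.1) *
          (F (∑ x ∈ q.2, Eb P T x) ^ 2 * XX (yp P r T) q.2) := by
      rw [Cn_one P B0 r F T hT10]
      apply Finset.sum_congr rfl
      intro q _
      rw [ae_sq, ae_sq]
    have e2 : SF B0 F (QT P r T) ^ 2 = (∑ n ∈ Finset.range (B0 + 1), F n ^ 2 *
        ∑ A ∈ (PS P T).powerset.filter (fun A => ∑ p ∈ A, Eb P T p = n), XX (yp P r T) A) *
        (∑ n ∈ Finset.range (B0 + 1), F n ^ 2 *
        ∑ A ∈ (PS P T).powerset.filter (fun A => ∑ p ∈ A, Eb P T p = n), XX (yp P r T) A) := by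
      rw [sq]
      rfl
    rw [e1, e2]
    refine key.trans ?_
    calc (K ^ 2) ^ 2 * (C * τ * G ^ 3) ≤ (K ^ 2) ^ 2 * (C ^ 4 * τ) :=
          mul_le_mul_of_nonneg_left hbad0 (by positivity)
      _ = K ^ 4 * C ^ 4 * τ := by ring
      _ ≤ _ := by
          apply mul_le_mul_of_nonneg_right _ hτ0.le
          have : 0 ≤ K ^ 4 * C ^ 4 := by positivity
          have : 0 ≤ K ^ 4 * C ^ 3 := by positivity
          linarith
  · intro p hp hpB
    have key := replace (PS P T) (Eb P T) (yp P r T) B0 (C * τ) (K ^ 2) hM p hp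
      (fun n => F n ^ 2) (fun n => if n + Eb P T p ≤ B0 then F n * F (n + Eb P T p) else 0)
      (fun n hn => by simpa [sq] using hFF n (by omega) n (by omega))
      (fun n hn => by
        split_ifs
        · exact hFF n (by omega) _ (by omega)
        · simp
          positivity)
    rw [← hG] at key
    have e1 : Cn P B0 r F T p = 2 * yp P r T p *
        ∑ q ∈ (FF (PS P T) (Eb P T) B0 ×ˢ FF (PS P T) (Eb P T) B0).filter
        (fun q => Disjoint q.1 q.2 ∧ p ∉ q.1 ∧ p ∉ q.2),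
        (F (∑ x ∈ q.1, Eb P T x) ^ 2 * XX (yp P r T) q.1) *
          ((if ∑ x ∈ q.2, Eb P T x + Eb P T p ≤ B0 then
            F (∑ x ∈ q.2, Eb P T x) * F (∑ x ∈ q.2, Eb P T x + Eb P T p) else 0) *
            XX (yp P r T) q.2) := by
      rw [Cn_prime P B0 r F T hT10 p hp, mul_assoc, Finset.mul_sum (a := yp P r T p)]
      congr 1
      unfold prs
      rw [Finset.filter_filter, Finset.sum_filter, Finset.sum_filter]
      apply Finset.sum_congr rfl
      intro q _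
      by_cases hd : Disjoint q.1 q.2
      swap
      · simp [hd]
      by_cases hp1 : p ∈ q.1
      · simp [hp1]
      by_cases hp2 : p ∈ q.2
      · simp [hp2]
      by_cases he : ∑ x ∈ q.2, Eb P T x + Eb P T p ≤ B0
      · rw [if_pos ⟨hd, hp1, hp2, he⟩, if_pos ⟨hd, hp1, hp2⟩, if_pos he, ae_sq,
          ae_insert P r F T q.2 p hp2]
        ring
      · rw [if_neg (fun h => he h.2.2.2), if_pos ⟨hd, hp1, hp2⟩, if_neg he]
        ring
    have e2 : SM B0 F (QT P r T) (Eb P T p) = ∑ n ∈ Finset.range (B0 + 1),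
        (if n + Eb P T p ≤ B0 then F n * F (n + Eb P T p) else 0) *
        ∑ A ∈ (PS P T).powerset.filter (fun A => ∑ p ∈ A, Eb P T p = n), XX (yp P r T) A := by
      unfold SM
      have hsub : Finset.range (B0 + 1 - Eb P T p) ⊆ Finset.range (B0 + 1) := by
        intro n hn
        rw [Finset.mem_range] at hn ⊢
        omega
      rw [← Finset.sum_subset hsub]
      · apply Finset.sum_congr rfl
        intro n hn
        rw [Finset.mem_range] at hn
        rw [if_pos (by omega)]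
        rfl
      · intro n _ hn
        rw [Finset.mem_range] at hn
        rw [if_neg (by omega), zero_mul]
    have e3 : SF B0 F (QT P r T) = ∑ n ∈ Finset.range (B0 + 1), F n ^ 2 *
        ∑ A ∈ (PS P T).powerset.filter (fun A => ∑ p ∈ A, Eb P T p = n), XX (yp P r T) A := rfl
    rw [e1, e2, e3, ← mul_sub, abs_mul]
    have e4 : |2 * yp P r T p| = 2 * |yp P r T p| := by
      rw [abs_mul, abs_of_pos (by norm_num : (0 : ℝ) < 2)]
    rw [e4]
    have h0 := abs_nonneg (yp P r T p)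
    refine (mul_le_mul_of_nonneg_left key (by positivity)).trans ?_
    calc 2 * |yp P r T p| * ((K ^ 2) ^ 2 * (C * τ * G ^ 3 + 2 * (C * τ * G ^ 2)))
        ≤ 2 * |yp P r T p| * ((K ^ 2) ^ 2 * ((C ^ 4 + 2 * C ^ 3) * τ)) := by gcongr
      _ = 2 * (K ^ 4 * (C ^ 4 + 2 * C ^ 3)) * |yp P r T p| * τ := by ring
      _ ≤ _ := by
          apply mul_le_mul_of_nonneg_right _ hτ0.le
          apply mul_le_mul_of_nonneg_right _ h0
          have : 0 ≤ K ^ 4 * C ^ 3 := by positivity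
          linarith
  · intro p hp hpB
    rw [Cn_prime P B0 r F T hT10 p hp]
    have : (prs P B0 T).filter (fun q => p ∉ q.1 ∧ p ∉ q.2 ∧
        ∑ x ∈ q.2, Eb P T x + Eb P T p ≤ B0) = ∅ := by
      apply Finset.filter_false_of_mem
      rintro q - ⟨-, -, h⟩
      omega
    rw [this]
    simp
  · intro p hp
    have hEb : Eb P T p ≤ 2 * B0 := hB ▸ Eb_le P T hT10 p hp
    refine (Cn_prime_sq P B0 r F T hT10 p hp).trans ?_
    have h3 : ∀ q ∈ (prs P B0 T).filter (fun q => p ∉ q.1 ∧ p ∉ q.2),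
        |ae P r F T q.1 * ae P r F T (insert p q.1) * (ae P r F T q.2 * ae P r F T (insert p q.2))| ≤
        (yp P r T p ^ 2 * K ^ 4) * (XX (yp P r T) q.1 * XX (yp P r T) q.2) := by
      intro q hq
      unfold prs fam at hq
      rw [Finset.mem_filter, Finset.mem_filter, Finset.mem_product, Finset.mem_filter,
        Finset.mem_filter] at hq
      have g1 := hq.1.1.1.2
      have g2 := hq.1.1.2.2
      rw [ae_insert P r F T q.1 p hq.2.1, ae_insert P r F T q.2 p hq.2.2]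
      have e1 := hFF (∑ x ∈ q.1, Eb P T x) (by omega) (∑ x ∈ q.1, Eb P T x + Eb P T p) (by omega)
      have e2 := hFF (∑ x ∈ q.2, Eb P T x) (by omega) (∑ x ∈ q.2, Eb P T x + Eb P T p) (by omega)
      have n1 := XX_nonneg (yp P r T) q.1
      have n2 := XX_nonneg (yp P r T) q.2
      have e3 : yp P r T p * (F (∑ x ∈ q.1, Eb P T x) * F (∑ x ∈ q.1, Eb P T x + Eb P T p) *
          XX (yp P r T) q.1) * (yp P r T p * (F (∑ x ∈ q.2, Eb P T x) *
          F (∑ x ∈ q.2, Eb P T x + Eb P T p) * XX (yp P r T) q.2)) =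
          yp P r T p ^ 2 * ((F (∑ x ∈ q.1, Eb P T x) * F (∑ x ∈ q.1, Eb P T x + Eb P T p)) *
          (F (∑ x ∈ q.2, Eb P T x) * F (∑ x ∈ q.2, Eb P T x + Eb P T p))) *
          (XX (yp P r T) q.1 * XX (yp P r T) q.2) := by ring
      rw [e3, abs_mul, abs_mul, abs_of_nonneg (sq_nonneg (yp P r T p)),
        abs_of_nonneg (mul_nonneg n1 n2), abs_mul (F _ * F _)]
      calc yp P r T p ^ 2 * (|F (∑ x ∈ q.1, Eb P T x) * F (∑ x ∈ q.1, Eb P T x + Eb P T p)| *
            |F (∑ x ∈ q.2, Eb P T x) * F (∑ x ∈ q.2, Eb P T x + Eb P T p)|) *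
            (XX (yp P r T) q.1 * XX (yp P r T) q.2)
          ≤ yp P r T p ^ 2 * (K ^ 2 * K ^ 2) * (XX (yp P r T) q.1 * XX (yp P r T) q.2) := by gcongr
        _ = _ := by ring
    refine (Finset.sum_le_sum h3).trans ?_
    rw [← Finset.mul_sum]
    have h5 : ∑ q ∈ (prs P B0 T).filter (fun q => p ∉ q.1 ∧ p ∉ q.2),
        XX (yp P r T) q.1 * XX (yp P r T) q.2 ≤ G * G := by
      rw [hG, ← prod_sum]
      apply Finset.sum_le_sum_of_subset_of_nonneg
      · intro q hq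
        rw [Finset.mem_filter] at hq
        have := hq.1
        unfold prs at this
        rw [Finset.mem_filter] at this
        exact this.1
      · intro q _ _
        exact mul_nonneg (XX_nonneg _ _) (XX_nonneg _ _)
    have h6 := (h2 p hp).2.1
    have hp0 : 0 ≤ C / (p : ℝ) := by positivity
    calc yp P r T p ^ 2 * K ^ 4 * ∑ q ∈ (prs P B0 T).filter (fun q => p ∉ q.1 ∧ p ∉ q.2),
          XX (yp P r T) q.1 * XX (yp P r T) q.2 ≤ (C / p) * K ^ 4 * (C * C) := by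
          apply mul_le_mul _ (h5.trans (mul_le_mul hGC hGC hG0 hC.le)) _ (by positivity)
          · exact mul_le_mul_of_nonneg_right h6 (by positivity)
          · exact Finset.sum_nonneg (fun q _ => mul_nonneg (XX_nonneg _ _) (XX_nonneg _ _))
      _ = (K ^ 4 * C ^ 3) / p := by ring
      _ ≤ _ := by
          apply div_le_div_of_nonneg_right _ (Nat.cast_nonneg _)
          have : 0 ≤ 2 * (K ^ 4 * (C ^ 4 + 2 * C ^ 3)) := by positivity
          linarith

end LG
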